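import Pool.Agent.H648.Q.Defs3
import Pool.Graph.R_seed8.TH890.DV.B3

/-!
# Q648, task LOG: from pairs to integers with the exponent `log 2`
-/

set_option autoImplicit false

namespace Pool.Agent.H962.Q648

open Finset Filter
open Pool.Agent.H648.Q (Fp)
open Pool.Agent.H648.Q3

/-- the hypothesis of `upgrade` -/
theorem log_hyp {g : ℕ → ℤ} {a b c s : ℤ} {A : ℕ} (hA : (A : ℤ) = a) (hA1 : 1 ≤ A)
    {c₀ : ℝ} (hc : 0 < c₀) {N₀ : ℕ}
    (h : ∀ N : ℕ, N₀ ≤ N → c₀ * N ≤ ((PR g a b c s N).card : ℝ)) :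
    ∃ κ : ℝ, 0 < κ ∧ ∃ N₀ : ℕ, ∀ N : ℕ, N₀ ≤ N → κ * N ≤
      (Set.ncard {p : ℕ × ℕ | 1 ≤ p.1 ∧ p.1 ≤ N ∧ 1 ≤ p.2 ∧ p.2 ≤ N ∧
        (∃ n : ℤ, (p.1 : ℤ) * p.2 = n ^ 2 + b * n + a * c) ∧
        (∃ x : ℕ, 1 ≤ x ∧ ((p.1 * p.2 : ℕ) : ℤ) = a * Fp a b c x ∧
          g (Fp a b c x).natAbs = s)} : ℝ) := by
  classical
  have hAr : (1 : ℝ) ≤ A := by exact_mod_cast hA1
  refine ⟨c₀ / (2 * A), by positivity, A * (N₀ + 1), fun N hN => ?_⟩
  obtain ⟨q, hq⟩ : ∃ q, q = N / A := ⟨_, rfl⟩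
  have hq1 : N₀ + 1 ≤ q := by
    rw [hq]
    exact (Nat.le_div_iff_mul_le (by omega)).2 (by rw [mul_comm]; exact hN)
  have hqN : A * q ≤ N := by rw [hq]; exact Nat.mul_div_le N A
  have hNq : N ≤ 2 * A * q := by
    have h1 : N < A * (q + 1) := by
      rw [hq]
      exact Nat.lt_mul_div_succ N (by omega)
    nlinarith
  have hqle : q ≤ N := (Nat.le_mul_of_pos_left q (by omega)).trans hqN
  have h1 := h q (by omega)
  have h2 : c₀ / (2 * A) * N ≤ c₀ * q := by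
    have h3 : (N : ℝ) ≤ 2 * A * q := by exact_mod_cast hNq
    calc c₀ / (2 * A) * N ≤ c₀ / (2 * A) * (2 * A * q) := by
          exact mul_le_mul_of_nonneg_left h3 (by positivity)
      _ = c₀ * q := by field_simp
  refine h2.trans (h1.trans ?_)
  have hinj : Set.InjOn (fun p : ℕ × ℕ => (A * p.1, p.2)) (PR g a b c s q : Set (ℕ × ℕ)) := by
    intro p _ p' _ hpp
    simp only [Prod.mk.injEq] at hpp
    exact Prod.ext (Nat.eq_of_mul_eq_mul_left (by omega) hpp.1) hpp.2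
  rw [← Finset.card_image_of_injOn hinj, ← Set.ncard_coe_finset]
  have hfin : {p : ℕ × ℕ | 1 ≤ p.1 ∧ p.1 ≤ N ∧ 1 ≤ p.2 ∧ p.2 ≤ N ∧
        (∃ n : ℤ, (p.1 : ℤ) * p.2 = n ^ 2 + b * n + a * c) ∧
        (∃ x : ℕ, 1 ≤ x ∧ ((p.1 * p.2 : ℕ) : ℤ) = a * Fp a b c x ∧
          g (Fp a b c x).natAbs = s)}.Finite := by
    refine Set.Finite.subset (Icc 1 N ×ˢ Icc 1 N).finite_toSet ?_
    rintro p ⟨h1, h2, h3, h4, -⟩
    simp only [Finset.coe_product, Set.mem_prod, Finset.mem_coe, mem_Icc]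
    exact ⟨⟨h1, h2⟩, h3, h4⟩
  have hle := Set.ncard_le_ncard (s := ((PR g a b c s q).image
    (fun p : ℕ × ℕ => (A * p.1, p.2)) : Set (ℕ × ℕ))) ?_ hfin
  · exact_mod_cast hle
  rintro _ hp
  rw [Finset.mem_coe, mem_image] at hp
  obtain ⟨⟨d, e⟩, hde, rfl⟩ := hp
  rw [PR, mem_filter, mem_product, mem_Icc, mem_Icc] at hde
  obtain ⟨⟨⟨hd1, hd2⟩, he1, he2⟩, ⟨x, hx1, hx2⟩, hg⟩ := hde
  simp only at hd1 hd2 he1 he2 hx2 hg
  have hab : (Fp a b c x).natAbs = d * e := by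
    rw [← hx2, Int.natAbs_mul, Int.natAbs_natCast, Int.natAbs_natCast]
  have hprod : ((A * d : ℕ) : ℤ) * (e : ℤ) = a * Fp a b c x := by
    push_cast
    rw [hA, mul_assoc, hx2]
  refine ⟨?_, ?_, he1, he2.trans hqle, ⟨a * x, ?_⟩, x, hx1, ?_, ?_⟩
  · exact Nat.mul_pos (by omega) (by omega)
  · exact (Nat.mul_le_mul_left A hd2).trans hqN
  · rw [hprod, Fp]; ring
  · rw [← hprod]; push_cast; ring
  · rw [hab]; exact hg

/-- the integers counted by `upgrade` are multiples of `a`, up to `|b|` of them -/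
theorem log_count {g : ℕ → ℤ} {a b c s : ℤ} {A : ℕ} (hA : (A : ℤ) = a) (hA1 : 1 ≤ A) (N : ℕ)
    [DecidablePred (fun n : ℕ => g (Fp a b c n).natAbs = s)] :
    Set.ncard {n : ℕ | 1 ≤ n ∧ n ≤ A * N ∧ ∃ m : ℕ, (n : ℤ) ^ 2 + b * n + a * c = m ∧
      (∃ x : ℕ, 1 ≤ x ∧ (m : ℤ) = a * Fp a b c x ∧ g (Fp a b c x).natAbs = s)} ≤
    ((Icc 1 N).filter (fun n : ℕ => g (Fp a b c n).natAbs = s)).card + b.natAbs := by
  classical
  have hsub : {n : ℕ | 1 ≤ n ∧ n ≤ A * N ∧ ∃ m : ℕ, (n : ℤ) ^ 2 + b * n + a * c = m ∧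
      (∃ x : ℕ, 1 ≤ x ∧ (m : ℤ) = a * Fp a b c x ∧ g (Fp a b c x).natAbs = s)} ⊆
      ((((Icc 1 N).filter (fun n : ℕ => g (Fp a b c n).natAbs = s)).image (fun x => A * x) ∪
        Icc 1 b.natAbs : Finset ℕ) : Set ℕ) := by
    rintro n ⟨hn1, hn2, m, hm, x, hx1, hx2, hx3⟩
    rw [Finset.mem_coe, mem_union, mem_image]
    have hz : ((n : ℤ) - a * x) * (n + a * x + b) = 0 := by
      rw [hx2, Fp] at hm
      linear_combination hm
    rcases mul_eq_zero.1 hz with h0 | h0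
    · left
      have hnx : n = A * x := by
        have : (n : ℤ) = ((A * x : ℕ) : ℤ) := by push_cast; rw [hA]; linarith
        exact_mod_cast this
      refine ⟨x, ?_, hnx.symm⟩
      rw [mem_filter, mem_Icc]
      refine ⟨⟨hx1, ?_⟩, hx3⟩
      rw [hnx] at hn2
      exact Nat.le_of_mul_le_mul_left hn2 (by omega)
    · right
      rw [mem_Icc]
      refine ⟨hn1, ?_⟩
      have hax : 0 ≤ a * (x : ℤ) := by rw [← hA]; positivity
      omega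
  have h1 := Set.ncard_le_ncard hsub (Finset.finite_toSet _)
  rw [Set.ncard_coe_finset] at h1
  refine h1.trans ((card_union_le _ _).trans ?_)
  refine Nat.add_le_add card_image_le ?_
  rw [Nat.card_Icc]
  omega

/-- the numerical comparison -/
theorem log_num {θ ε B : ℝ} (hθ : 0 < θ) (hε : 0 < ε) (hB : 0 ≤ B) (A : ℕ) (hA1 : 1 ≤ A) :
    ∃ N₀ : ℕ, ∀ N : ℕ, N₀ ≤ N → (N : ℝ) / Real.log N ^ (θ + ε) + B ≤
      ((A * N : ℕ) : ℝ) / Real.log ((A * N : ℕ) : ℝ) ^ θ := by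
  have hAr : (1 : ℝ) ≤ A := by exact_mod_cast hA1
  obtain ⟨D, hD⟩ : ∃ D : ℝ, D = (2 : ℝ) ^ θ := ⟨_, rfl⟩
  have hD0 : 0 < D := by rw [hD]; positivity
  have e1 : ∀ᶠ x : ℝ in atTop, 2 * D ≤ Real.log x ^ ε :=
    ((tendsto_rpow_atTop hε).comp Real.tendsto_log_atTop).eventually_ge_atTop _
  have e2 : ∀ᶠ x : ℝ in atTop, (2 * D * B) * Real.log x ^ θ ≤ x := by
    have ho := isLittleO_log_rpow_rpow_atTop θ (s := 1) one_pos
    have h3 := ho.bound (c := 1 / (2 * D * B + 1)) (by positivity)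
    filter_upwards [h3, eventually_ge_atTop 1] with x hx hx1
    have hl : 0 ≤ Real.log x := Real.log_nonneg hx1
    rw [Real.rpow_one, Real.norm_of_nonneg (Real.rpow_nonneg hl _),
      Real.norm_of_nonneg (by linarith), div_mul_eq_mul_div, one_mul,
      le_div_iff₀ (by positivity)] at hx
    have h4 : 0 ≤ Real.log x ^ θ := Real.rpow_nonneg hl _
    nlinarith
  have e3 : ∀ᶠ x : ℝ in atTop, (A : ℝ) ≤ x := eventually_ge_atTop _
  have e4 : ∀ᶠ x : ℝ in atTop, 1 ≤ Real.log x := Real.tendsto_log_atTop.eventually_ge_atTop _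
  have e := tendsto_natCast_atTop_atTop.eventually ((e1.and e2).and (e3.and e4))
  rw [eventually_atTop] at e
  obtain ⟨N₀, hN₀⟩ := e
  refine ⟨N₀, fun N hN => ?_⟩
  obtain ⟨⟨h1, h2⟩, h3, h4⟩ := hN₀ N hN
  obtain ⟨L, hL⟩ : ∃ L, L = Real.log (N : ℝ) := ⟨_, rfl⟩
  rw [← hL] at h1 h2 h4 ⊢
  have hN1 : (1 : ℝ) ≤ N := hAr.trans h3
  have hlog : Real.log ((A * N : ℕ) : ℝ) ≤ 2 * L := by
    push_cast
    rw [Real.log_mul (by positivity) (by positivity), ← hL]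
    have : Real.log (A : ℝ) ≤ L := by
      rw [hL]
      exact Real.log_le_log (by positivity) h3
    linarith
  have hlog1 : 1 ≤ Real.log ((A * N : ℕ) : ℝ) := by
    refine h4.trans ?_
    rw [hL]
    refine Real.log_le_log (by positivity) ?_
    push_cast
    nlinarith
  have hLp : 0 < L ^ θ := Real.rpow_pos_of_pos (by linarith) _
  have hLe : 0 < L ^ ε := Real.rpow_pos_of_pos (by linarith) _
  have hpow : Real.log ((A * N : ℕ) : ℝ) ^ θ ≤ D * L ^ θ := by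
    rw [hD, ← Real.mul_rpow (by norm_num) (by linarith)]
    exact Real.rpow_le_rpow (by linarith) hlog hθ.le
  have hge : (N : ℝ) / (D * L ^ θ) ≤ ((A * N : ℕ) : ℝ) / Real.log ((A * N : ℕ) : ℝ) ^ θ := by
    refine div_le_div₀ (by positivity) ?_ (Real.rpow_pos_of_pos (by linarith) _) hpow
    push_cast
    nlinarith
  refine le_trans ?_ hge
  have hs1 : (N : ℝ) / L ^ (θ + ε) ≤ (N : ℝ) / (2 * (D * L ^ θ)) := by
    refine div_le_div_of_nonneg_left (by positivity) (by positivity) ?_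
    rw [Real.rpow_add (by linarith)]
    nlinarith
  have hs2 : B ≤ (N : ℝ) / (2 * (D * L ^ θ)) := by
    rw [le_div_iff₀ (by positivity)]
    nlinarith
  have hs3 : (N : ℝ) / (D * L ^ θ) = (N : ℝ) / (2 * (D * L ^ θ)) + (N : ℝ) / (2 * (D * L ^ θ)) := by
    field_simp
    ring
  rw [hs3]
  exact add_le_add hs1 hs2

/-- U4: from pairs to integers with the exponent `log 2`. -/
theorem log_of {g : ℕ → ℤ} {a b c : ℤ} (ha : 0 < a) (hns : ¬ IsSquare (b ^ 2 - 4 * (a * c)))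
    (h : S_PRS g a b c) : S_LOG g a b c := by
  classical
  intro s hs ε hε
  obtain ⟨c₀, hc0, N₀, hP⟩ := h s hs
  obtain ⟨A, hA⟩ : ∃ A : ℕ, (A : ℤ) = a := ⟨a.toNat, Int.toNat_of_nonneg ha.le⟩
  have hA1 : 1 ≤ A := by omega
  obtain ⟨N₁, h1⟩ := Pool.Agent.TH890.DV.upgrade hns
    (P := fun m : ℕ => ∃ x : ℕ, 1 ≤ x ∧ (m : ℤ) = a * Fp a b c x ∧ g (Fp a b c x).natAbs = s)
    (log_hyp hA hA1 hc0 hP) (ε / 2) (by linarith)
  have hl2 : 0 < Real.log 2 := Real.log_pos (by norm_num)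
  obtain ⟨N₂, h2⟩ := log_num (θ := Real.log 2 + ε / 2) (ε := ε / 2) (B := (b.natAbs : ℝ))
    (by linarith) (by linarith) (by positivity) A hA1
  refine ⟨max N₁ N₂, fun N hN => ?_⟩
  have hN1 : N₁ ≤ A * N :=
    ((le_max_left _ _).trans hN).trans (Nat.le_mul_of_pos_left N (by omega))
  have h3 := h1 (A * N) hN1
  have h4 := h2 N ((le_max_right _ _).trans hN)
  have h5 := log_count (g := g) (b := b) (c := c) (s := s) hA hA1 N
  have h6 : ((Set.ncard {n : ℕ | 1 ≤ n ∧ n ≤ A * N ∧ ∃ m : ℕ,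
      (n : ℤ) ^ 2 + b * n + a * c = m ∧
      (∃ x : ℕ, 1 ≤ x ∧ (m : ℤ) = a * Fp a b c x ∧ g (Fp a b c x).natAbs = s)} : ℕ) : ℝ) ≤
    (((Icc 1 N).filter (fun n : ℕ => g (Fp a b c n).natAbs = s)).card : ℝ) + (b.natAbs : ℝ) := by
    exact_mod_cast h5
  have h7 : Real.log 2 + ε / 2 + ε / 2 = Real.log 2 + ε := by ring
  rw [h7] at h4
  linarith

end Pool.Agent.H962.Q648
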